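import Pool.Agent.R972.RJ.Step

/-!
# Existence of the time change by the Baire category theorem
-/

set_option autoImplicit false

open Set Filter Topology
open scoped BoundedContinuousFunction

namespace Pool.Agent.R972.RJ

/-- the complete metric space of admissible functions -/
def XX : Set (ℝ →ᵇ ℝ) := {V | Adm V}

lemma eval_cont (t : ℝ) : Continuous fun V : ℝ →ᵇ ℝ => V t := by fun_prop

lemma XX_closed : IsClosed XX := by
  have h : XX = (⋂ (s : ℝ) (t : ℝ) (_ : s ≤ t), {V : ℝ →ᵇ ℝ | V s ≤ V t}) ∩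
      ((⋂ (t : ℝ) (_ : t ≤ 0), {V : ℝ →ᵇ ℝ | V t = 0}) ∩
        (⋂ (t : ℝ) (_ : 1 ≤ t), {V : ℝ →ᵇ ℝ | V t = 1})) := by
    ext V
    simp only [XX, mem_inter_iff, mem_iInter, mem_ofPred_eq]
    constructor
    · intro h
      exact ⟨fun s t hst => h.mono hst, h.zero, h.one⟩
    · rintro ⟨h1, h2, h3⟩
      exact ⟨fun s t hst => h1 s t hst, h2, h3⟩
  rw [h]
  refine (isClosed_iInter fun s => isClosed_iInter fun t => isClosed_iInter fun _ =>
    isClosed_le (eval_cont s) (eval_cont t)).inter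
    ((isClosed_iInter fun t => isClosed_iInter fun _ =>
      isClosed_eq (eval_cont t) continuous_const).inter
      (isClosed_iInter fun t => isClosed_iInter fun _ =>
      isClosed_eq (eval_cont t) continuous_const))

instance : CompleteSpace XX := XX_closed.completeSpace_coe

/-- an admissible continuous function as a point of `XX` -/
noncomputable def mkX (V : ℝ → ℝ) (hc : Continuous V) (hV : Adm V) : XX :=
  ⟨BoundedContinuousFunction.ofNormedAddCommGroup V hc 1 (fun t => by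
    rw [Real.norm_eq_abs, abs_of_nonneg (hV.nonneg t)]; exact hV.le_one t), hV⟩

lemma mkX_apply (V : ℝ → ℝ) (hc : Continuous V) (hV : Adm V) (t : ℝ) :
    (mkX V hc hV : ℝ →ᵇ ℝ) t = V t := rfl

lemma cl_adm : Adm cl := ⟨cl_mono, fun _ h => cl_zero h, fun _ h => cl_one h⟩

lemma dist_le_X {V W : XX} {r : ℝ} (hr : 0 ≤ r) (h : ∀ t, |(V : ℝ →ᵇ ℝ) t - (W : ℝ →ᵇ ℝ) t| ≤ r) :
    dist V W ≤ r := by
  rw [Subtype.dist_eq]
  exact (BoundedContinuousFunction.dist_le hr).2 fun t => by rw [Real.dist_eq]; exact h t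

/-- strict increase between two given points is generic -/
lemma dense_strict (a b : ℝ) (ha : 0 ≤ a) (hab : a < b) (hb : b ≤ 1) :
    Dense {V : XX | (V : ℝ →ᵇ ℝ) a < (V : ℝ →ᵇ ℝ) b} := by
  rw [Metric.dense_iff]
  intro V r hr
  set e : ℝ := min (r / 4) (1 / 2) with he
  have he0 : 0 < e := lt_min (by linarith) (by norm_num)
  have he1 : e ≤ 1 / 2 := min_le_right _ _
  have her : e ≤ r / 4 := min_le_left _ _
  have hV : Adm (V : ℝ →ᵇ ℝ) := V.2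
  let W : ℝ → ℝ := fun t => (1 - e) * (V : ℝ →ᵇ ℝ) t + e * cl t
  have hWc : Continuous W := by
    have := (V : ℝ →ᵇ ℝ).continuous
    have := cl_cont
    fun_prop
  have hW : Adm W := by
    refine ⟨fun s t h => ?_, fun t h => ?_, fun t h => ?_⟩
    · have h1 := hV.mono h
      have h2 := cl_mono h
      show (1 - e) * _ + e * _ ≤ (1 - e) * _ + e * _
      have h3 : 0 ≤ 1 - e := by linarith
      gcongr
    · show (1 - e) * _ + e * _ = 0
      rw [hV.zero t h, cl_zero h]; ring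
    · show (1 - e) * _ + e * _ = 1
      rw [hV.one t h, cl_one h]; ring
  refine ⟨mkX W hWc hW, ?_, ?_⟩
  · rw [Metric.mem_ball]
    refine lt_of_le_of_lt (dist_le_X (r := e) he0.le fun t => ?_) (by linarith)
    rw [mkX_apply]
    show |(1 - e) * (V : ℝ →ᵇ ℝ) t + e * cl t - (V : ℝ →ᵇ ℝ) t| ≤ e
    have h1 := hV.nonneg t
    have h2 := hV.le_one t
    have h3 := cl_nonneg t
    have h4 := cl_le t
    rw [show (1 - e) * (V : ℝ →ᵇ ℝ) t + e * cl t - (V : ℝ →ᵇ ℝ) t =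
      e * (cl t - (V : ℝ →ᵇ ℝ) t) by ring, abs_mul, abs_of_pos he0]
    have : |cl t - (V : ℝ →ᵇ ℝ) t| ≤ 1 := by rw [abs_le]; constructor <;> linarith
    nlinarith
  · show (mkX W hWc hW : ℝ →ᵇ ℝ) a < (mkX W hWc hW : ℝ →ᵇ ℝ) b
    rw [mkX_apply, mkX_apply]
    show (1 - e) * (V : ℝ →ᵇ ℝ) a + e * cl a < (1 - e) * (V : ℝ →ᵇ ℝ) b + e * cl b
    have h1 := hV.mono hab.le
    rw [cl_id ha (by linarith), cl_id (by linarith) hb]
    have h3 : 0 ≤ 1 - e := by linarith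
    have h4 : (1 - e) * (V : ℝ →ᵇ ℝ) a ≤ (1 - e) * (V : ℝ →ᵇ ℝ) b := by gcongr
    have h5 : e * a < e * b := by gcongr
    linarith

/-- the flatness sets -/
def OO (δ : ℕ → ℕ → ℝ) (k : ℕ) : Set XX :=
  {V | ∃ n : ℕ, k ≤ n ∧ ∀ j : ℕ, j < 2 ^ n →
    (V : ℝ →ᵇ ℝ) (((j : ℝ) + 1) / (2 ^ n : ℕ)) -
      (V : ℝ →ᵇ ℝ) (((j : ℝ) + (1 / 2) ^ k) / (2 ^ n : ℕ)) < δ k n}

lemma OO_open (δ : ℕ → ℕ → ℝ) (k : ℕ) : IsOpen (OO δ k) := by
  have h : OO δ k = ⋃ (n : ℕ) (_ : k ≤ n), ⋂ j ∈ Finset.range (2 ^ n), {V : XX |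
      (V : ℝ →ᵇ ℝ) (((j : ℝ) + 1) / (2 ^ n : ℕ)) -
      (V : ℝ →ᵇ ℝ) (((j : ℝ) + (1 / 2) ^ k) / (2 ^ n : ℕ)) < δ k n} := by
    ext V
    simp [OO]
  rw [h]
  refine isOpen_iUnion fun n => isOpen_iUnion fun _ => ?_
  refine isOpen_biInter_finset fun j _ => ?_
  exact isOpen_lt (((eval_cont _).comp continuous_subtype_val).sub
    ((eval_cont _).comp continuous_subtype_val)) continuous_const

lemma OO_dense (δ : ℕ → ℕ → ℝ) (hδ : ∀ k n, 0 < δ k n) (k : ℕ) : Dense (OO δ k) := by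
  rw [Metric.dense_iff]
  intro V r hr
  have hV : Adm (V : ℝ →ᵇ ℝ) := V.2
  -- uniform continuity
  have hu : UniformContinuousOn (V : ℝ →ᵇ ℝ) (Icc 0 1) :=
    isCompact_Icc.uniformContinuousOn_of_continuous (V : ℝ →ᵇ ℝ).continuous.continuousOn
  rw [Metric.uniformContinuousOn_iff] at hu
  obtain ⟨d, hd, hd2⟩ := hu (r / 2) (by linarith)
  obtain ⟨n0, hn0⟩ := exists_pow_lt_of_lt_one hd (show (1 / 2 : ℝ) < 1 by norm_num)
  set n := max n0 k with hn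
  have hnd : (1 / 2 : ℝ) ^ n < d :=
    lt_of_le_of_lt (pow_le_pow_of_le_one (by norm_num) (by norm_num) (le_max_left _ _)) hn0
  have hN : 0 < 2 ^ n := by positivity
  have hN' : (0 : ℝ) < ((2 ^ n : ℕ) : ℝ) := by exact_mod_cast hN
  set a : ℝ := (1 / 2) ^ k with ha
  have ha0 : 0 < a := by positivity
  have ha1 : a ≤ 1 := pow_le_one₀ (by norm_num) (by norm_num)
  obtain ⟨p, hp0, hp⟩ : ∃ p : ℝ, 0 < p ∧ 1 - a ^ p < δ k n := by
    have h1 : Tendsto (fun p : ℝ => 1 - a ^ p) (𝓝[>] 0) (𝓝 (1 - a ^ (0 : ℝ))) :=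
      (((Real.continuous_const_rpow ha0.ne').tendsto 0).mono_left
        nhdsWithin_le_nhds).const_sub 1
    rw [Real.rpow_zero, sub_self] at h1
    have h2 := (h1.eventually_lt_const (hδ k n)).and self_mem_nhdsWithin
    obtain ⟨p, hp, hp0⟩ := h2.exists
    exact ⟨p, hp0, hp⟩
  have hW := S_adm hV hN hp0
  refine ⟨mkX (S (V : ℝ →ᵇ ℝ) (2 ^ n) p) (S_cont _ _ hp0) hW, ?_, ?_⟩
  · rw [Metric.mem_ball]
    refine lt_of_le_of_lt (dist_le_X (r := r / 2) (by linarith) fun t => ?_) (by linarith)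
    rw [mkX_apply]
    refine S_close hV hN hp0 (fun i hi => ?_) (by linarith) t
    have hi' : (i : ℝ) + 1 ≤ ((2 ^ n : ℕ) : ℝ) := by exact_mod_cast hi
    have e1 : (((i : ℝ) + 1) / ((2 ^ n : ℕ) : ℝ)) ∈ Icc (0 : ℝ) 1 :=
      ⟨by positivity, by rw [div_le_one hN']; exact hi'⟩
    have e2 : ((i : ℝ) / ((2 ^ n : ℕ) : ℝ)) ∈ Icc (0 : ℝ) 1 :=
      ⟨by positivity, by rw [div_le_one hN']; linarith⟩
    have h3 := hd2 _ e1 _ e2 (by
      rw [Real.dist_eq, ← sub_div, add_sub_cancel_left, abs_of_pos (by positivity)]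
      have : (1 : ℝ) / ((2 ^ n : ℕ) : ℝ) = (1 / 2) ^ n := by push_cast; rw [one_div_pow]
      rw [this]; exact hnd)
    rw [Real.dist_eq] at h3
    exact (le_abs_self _).trans h3.le
  · refine ⟨n, le_max_right _ _, fun j hj => ?_⟩
    rw [mkX_apply, mkX_apply]
    exact lt_of_le_of_lt (S_flat hV hN hp0 hj ha0.le ha1) hp

/-- **the time change** -/
theorem exists_V (δ : ℕ → ℕ → ℝ) (hδ : ∀ k n, 0 < δ k n) : ∃ V : ℝ → ℝ, Continuous V ∧ Adm V ∧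
    StrictMonoOn V (Icc 0 1) ∧ ∀ k : ℕ, ∃ n : ℕ, k ≤ n ∧ ∀ j : ℕ, j < 2 ^ n →
      V (((j : ℝ) + 1) / (2 ^ n : ℕ)) - V (((j : ℝ) + (1 / 2) ^ k) / (2 ^ n : ℕ)) < δ k n := by
  have : Nonempty XX := ⟨mkX cl cl_cont cl_adm⟩
  have h1 : Dense (⋂ k : ℕ, OO δ k) := dense_iInter_of_isOpen (fun k => OO_open δ k)
    (fun k => OO_dense δ hδ k)
  let G : ℚ × ℚ → Set XX := fun q => {V | (0 : ℝ) ≤ q.1 → (q.1 : ℝ) < q.2 → (q.2 : ℝ) ≤ 1 →
    (V : ℝ →ᵇ ℝ) q.1 < (V : ℝ →ᵇ ℝ) q.2}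
  have hGo : ∀ q, IsOpen (G q) := by
    intro q
    by_cases h : (0 : ℝ) ≤ q.1 ∧ (q.1 : ℝ) < q.2 ∧ (q.2 : ℝ) ≤ 1
    · have : G q = {V : XX | (V : ℝ →ᵇ ℝ) q.1 < (V : ℝ →ᵇ ℝ) q.2} := by
        ext V; simp only [G, mem_ofPred_eq]
        exact ⟨fun g => g h.1 h.2.1 h.2.2, fun g _ _ _ => g⟩
      rw [this]
      exact isOpen_lt ((eval_cont _).comp continuous_subtype_val)
        ((eval_cont _).comp continuous_subtype_val)
    · have : G q = univ := by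
        ext V; simp only [G, mem_ofPred_eq, mem_univ, iff_true]
        intro a b c; exact absurd ⟨a, b, c⟩ h
      rw [this]; exact isOpen_univ
  have hGd : ∀ q, Dense (G q) := by
    intro q
    by_cases h : (0 : ℝ) ≤ q.1 ∧ (q.1 : ℝ) < q.2 ∧ (q.2 : ℝ) ≤ 1
    · refine (dense_strict q.1 q.2 h.1 h.2.1 h.2.2).mono ?_
      intro V hV _ _ _; exact hV
    · have : G q = univ := by
        ext V; simp only [G, mem_ofPred_eq, mem_univ, iff_true]
        intro a b c; exact absurd ⟨a, b, c⟩ h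
      rw [this]; exact dense_univ
  have h2 : Dense (⋂ q : ℚ × ℚ, G q) := dense_iInter_of_isOpen hGo hGd
  have h3 : Dense ((⋂ k : ℕ, OO δ k) ∩ ⋂ q : ℚ × ℚ, G q) :=
    h1.inter_of_Gδ (.iInter_of_isOpen fun k => OO_open δ k) (.iInter_of_isOpen hGo) h2
  obtain ⟨V, hV1, hV2⟩ := h3.nonempty
  have hV : Adm (V : ℝ →ᵇ ℝ) := V.2
  refine ⟨(V : ℝ →ᵇ ℝ), (V : ℝ →ᵇ ℝ).continuous, hV, ?_, fun k => mem_iInter.1 hV1 k⟩
  intro s hs t ht hst
  obtain ⟨q1, hq1, hq1'⟩ := exists_rat_btwn hst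
  obtain ⟨q2, hq2, hq2'⟩ := exists_rat_btwn hq1'
  have h4 := mem_iInter.1 hV2 (q1, q2) (by show (0 : ℝ) ≤ q1; linarith [hs.1]) hq2
    (by show (q2 : ℝ) ≤ 1; linarith [ht.2])
  exact lt_of_le_of_lt (hV.mono hq1.le) (lt_of_lt_of_le h4 (hV.mono hq2'.le))

end Pool.Agent.R972.RJ
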