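import Mathlib

/-!
# Rajchman measures on graphs of time-changed paths: definitions
-/

set_option autoImplicit false

open Set Filter Topology MeasureTheory
open scoped NNReal

namespace Pool.Agent.R972.RJ

/-- The Fourier transform `∫ exp(-2πi⟨ξ,x⟩) dμ(x)` of a measure `μ` on the plane. -/
noncomputable def ft (μ : Measure (ℝ × ℝ)) (ξ : ℝ × ℝ) : ℂ :=
  ∫ x : ℝ × ℝ, Complex.exp (-2 * Real.pi * Complex.I * ((ξ.1 * x.1 + ξ.2 * x.2 : ℝ) : ℂ)) ∂μ

/-- A nonzero finite Borel measure on the plane whose Fourier transform tends to `0` at infinity. -/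
structure IsRajchman (μ : Measure (ℝ × ℝ)) : Prop where
  finite : IsFiniteMeasure μ
  ne_zero : μ ≠ 0
  decay : Tendsto (ft μ) (cocompact (ℝ × ℝ)) (𝓝 0)

/-- The graph `{(t, b(V(t))) : t ∈ [0,1]}` of the path `b` run with the clock `V`. -/
def graph (V : ℝ → ℝ) (b : ℝ≥0 → ℝ) : Set (ℝ × ℝ) :=
  {p | p.1 ∈ Icc (0 : ℝ) 1 ∧ p.2 = b (V p.1).toNNReal}

end Pool.Agent.R972.RJ
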