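import Mathlib
import Pool.Agent.W854.DY.Osc

/-!
# Modulus of continuity of Brownian paths and simultaneous Dirichlet approximation
-/

set_option autoImplicit false

open Set Filter Topology MeasureTheory ProbabilityTheory Pool.Agent.W854.DY
open scoped NNReal ENNReal

namespace Pool.Agent.R972.RJ

/-- dyadic increments decay geometrically -/
def Dy (A : ℝ) (β : ℝ → ℝ) : Prop :=
  ∀ m j : ℕ, j < 2 ^ m → |β (((j + 1 : ℕ) : ℝ) / 2 ^ m) - β ((j : ℝ) / 2 ^ m)| ≤ A * rr ^ m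

lemma rr_pos : 0 < rr := by unfold rr; norm_num

lemma rr_lt : rr < 1 := by unfold rr; norm_num

lemma cell {β : ℝ → ℝ} (hβ : Continuous β) {A : ℝ} (hA : 0 ≤ A) (h : Dy A β) {n k : ℕ}
    (hk : k < 2 ^ n) {s : ℝ} (h0 : (k : ℝ) ≤ s * 2 ^ n) (h1 : s * 2 ^ n ≤ k + 1) :
    |β s - β ((k : ℝ) / 2 ^ n)| ≤ 12 * (A * rr ^ n) := by
  have hg : Continuous fun x : ℝ => β (((k : ℝ) + x) / 2 ^ n) := hβ.comp (by fun_prop)
  have h2 := chain_all hg (A * rr ^ n) rr (mul_nonneg hA (pow_nonneg rr_pos.le _)) rr_pos.le rr_lt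
    (by
      intro m j hj
      have e1 : ((k : ℝ) + ((j + 1 : ℕ) : ℝ) / 2 ^ m) / 2 ^ n =
          (((k * 2 ^ m + j) + 1 : ℕ) : ℝ) / 2 ^ (n + m) := by
        push_cast; rw [pow_add]; field_simp; ring
      have e2 : ((k : ℝ) + (j : ℝ) / 2 ^ m) / 2 ^ n =
          ((k * 2 ^ m + j : ℕ) : ℝ) / 2 ^ (n + m) := by
        push_cast; rw [pow_add]; field_simp
      simp only [e1, e2]
      have h3 := h (n + m) (k * 2 ^ m + j) (by
        rw [pow_add]
        calc k * 2 ^ m + j < k * 2 ^ m + 2 ^ m := by omega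
          _ = (k + 1) * 2 ^ m := by ring
          _ ≤ 2 ^ n * 2 ^ m := Nat.mul_le_mul_right _ hk)
      rw [mul_assoc, ← pow_add]
      exact h3) (s * 2 ^ n - k) (by linarith) (by linarith)
  have e3 : ((k : ℝ) + (s * 2 ^ n - k)) / 2 ^ n = s := by field_simp; ring
  have e4 : A * rr ^ n / (1 - rr) = 12 * (A * rr ^ n) := by
    have : (1 - rr) = 1 / 12 := by unfold rr; norm_num
    rw [this]; ring
  simp only [e3, add_zero] at h2
  rw [e4] at h2
  exact h2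

lemma osc {β : ℝ → ℝ} (hβ : Continuous β) {A : ℝ} (hA : 0 ≤ A) (h : Dy A β) (n : ℕ) {s t : ℝ}
    (hs : 0 ≤ s) (hst : s ≤ t) (ht : t ≤ 1) (hd : t - s ≤ (1 / 2) ^ n) :
    |β s - β t| ≤ 25 * (A * rr ^ n) := by
  have hp : 0 ≤ A * rr ^ n := mul_nonneg hA (pow_nonneg rr_pos.le _)
  have h2n : (0 : ℝ) < 2 ^ n := by positivity
  rcases eq_or_lt_of_le (hst.trans ht) with h1 | h1
  · have : s = t := le_antisymm hst (by linarith)
    rw [this, sub_self, abs_zero]; linarith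
  set k := ⌊s * 2 ^ n⌋₊ with hk
  have hk0 : (k : ℝ) ≤ s * 2 ^ n := Nat.floor_le (by positivity)
  have hk1 : s * 2 ^ n < k + 1 := Nat.lt_floor_add_one _
  have hkn : k < 2 ^ n := by
    have : (k : ℝ) < 2 ^ n := lt_of_le_of_lt hk0 (by nlinarith)
    exact_mod_cast this
  have a1 := cell hβ hA h hkn hk0 hk1.le
  have hd' : t * 2 ^ n ≤ s * 2 ^ n + 1 := by
    have : (t - s) * 2 ^ n ≤ (1 / 2) ^ n * 2 ^ n := by gcongr
    rw [← mul_pow] at this
    norm_num at this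
    linarith
  have hst' : s * 2 ^ n ≤ t * 2 ^ n := by gcongr
  rcases le_or_gt (t * 2 ^ n) (k + 1) with h2 | h2
  · have a2 := cell hβ hA h hkn (hk0.trans hst') h2
    have := abs_sub_le (β s) (β ((k : ℝ) / 2 ^ n)) (β t)
    rw [abs_sub_comm (β ((k : ℝ) / 2 ^ n)) (β t)] at this
    linarith
  · have hk2 : k + 1 < 2 ^ n := by
      have : ((k : ℝ) + 1) < 2 ^ n := lt_of_lt_of_le h2 (by nlinarith)
      exact_mod_cast this
    have a2 := cell hβ hA h hk2 (s := t) (by push_cast; linarith) (by push_cast; linarith)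
    have a3 := h n k hkn
    have b1 := abs_sub_le (β s) (β ((k : ℝ) / 2 ^ n)) (β t)
    have b2 := abs_sub_le (β ((k : ℝ) / 2 ^ n)) (β (((k + 1 : ℕ) : ℝ) / 2 ^ n)) (β t)
    rw [abs_sub_comm (β ((k : ℝ) / 2 ^ n)) (β (((k + 1 : ℕ) : ℝ) / 2 ^ n)),
      abs_sub_comm (β (((k + 1 : ℕ) : ℝ) / 2 ^ n)) (β t)] at b2
    linarith

/-- simultaneous approximation by the box principle -/
lemma dirichlet (N K : ℕ) (hK : 0 < K) (x : ℕ → ℝ) :
    ∃ q : ℕ, 1 ≤ q ∧ q ≤ K ^ N ∧ ∀ j < N, ∃ m : ℤ, |(q : ℝ) * x j - m| ≤ 1 / K := by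
  classical
  have hK' : (0 : ℝ) < K := by exact_mod_cast hK
  have hfl : ∀ y : ℝ, ⌊(K : ℝ) * Int.fract y⌋₊ < K := by
    intro y
    rw [Nat.floor_lt (mul_nonneg hK'.le (Int.fract_nonneg _))]
    have := Int.fract_lt_one y
    nlinarith
  let f : ℕ → (Fin N → Fin K) := fun n j => ⟨⌊(K : ℝ) * Int.fract ((n : ℝ) * x j)⌋₊, hfl _⟩
  have hcard : (Finset.univ : Finset (Fin N → Fin K)).card < (Finset.range (K ^ N + 1)).card := by
    simp
  obtain ⟨a, ha, b, hb, hab, hf⟩ := Finset.exists_ne_map_eq_of_card_lt_of_maps_to hcard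
    (f := f) (fun _ _ => Finset.mem_coe.2 (Finset.mem_univ _))
  have key : ∀ a b : ℕ, a ∈ Finset.range (K ^ N + 1) → b ∈ Finset.range (K ^ N + 1) → a < b →
      f a = f b → ∃ q : ℕ, 1 ≤ q ∧ q ≤ K ^ N ∧ ∀ j < N, ∃ m : ℤ, |(q : ℝ) * x j - m| ≤ 1 / K := by
    intro a b ha hb hab hf
    have hb' := Finset.mem_range.1 hb
    refine ⟨b - a, by omega, by omega, fun j hj => ?_⟩
    have h1 := congrFun hf ⟨j, hj⟩
    simp only [f, Fin.mk.injEq] at h1
    refine ⟨⌊(b : ℝ) * x j⌋ - ⌊(a : ℝ) * x j⌋, ?_⟩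
    have e : ((b - a : ℕ) : ℝ) * x j - ((⌊(b : ℝ) * x j⌋ - ⌊(a : ℝ) * x j⌋ : ℤ) : ℝ) =
        Int.fract ((b : ℝ) * x j) - Int.fract ((a : ℝ) * x j) := by
      rw [Nat.cast_sub hab.le]
      push_cast
      have h2 := Int.self_sub_floor ((b : ℝ) * x j)
      have h3 := Int.self_sub_floor ((a : ℝ) * x j)
      linear_combination h2 - h3
    rw [e]
    have g1 := Nat.floor_le (mul_nonneg hK'.le (Int.fract_nonneg ((a : ℝ) * x j)))
    have g2 := Nat.lt_floor_add_one ((K : ℝ) * Int.fract ((a : ℝ) * x j))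
    have g3 := Nat.floor_le (mul_nonneg hK'.le (Int.fract_nonneg ((b : ℝ) * x j)))
    have g4 := Nat.lt_floor_add_one ((K : ℝ) * Int.fract ((b : ℝ) * x j))
    rw [h1] at g1 g2
    have e2 : |Int.fract ((b : ℝ) * x j) - Int.fract ((a : ℝ) * x j)| * K =
        |(Int.fract ((b : ℝ) * x j) - Int.fract ((a : ℝ) * x j)) * K| := by
      rw [abs_mul, abs_of_pos hK']
    rw [le_div_iff₀ hK', e2, abs_le]
    constructor <;> linarith
  rcases lt_or_gt_of_ne hab with h | h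
  · exact key a b ha hb h hf
  · exact key b a hb ha h hf.symm

/-- almost every Brownian path has geometrically decaying dyadic increments -/
lemma ae_Dy {Ω : Type*} [MeasurableSpace Ω] {P : Measure Ω} {B : ℝ≥0 → Ω → ℝ}
    (hB : IsPreBrownianReal B P) :
    ∀ᵐ ω ∂P, ∃ A : ℝ, 0 ≤ A ∧ Dy A (fun x => B x.toNNReal ω) := by
  rw [ae_iff]
  have hsub : ∀ n : ℕ, {ω | ¬ ∃ A : ℝ, 0 ≤ A ∧ Dy A (fun x => B x.toNNReal ω)} ⊆
      bad B ((n : ℝ) + 1) 0 := by
    intro n ω hω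
    by_contra h
    refine hω ⟨(n : ℝ) + 1, by positivity, ?_⟩
    intro m j hj
    unfold bad at h
    simp only [mem_iUnion, not_exists] at h
    have := h m j (Finset.mem_range.2 hj)
    simp only [mem_ofPred_eq, not_lt] at this
    have hnn : ∀ (a : ℕ), ((a : ℝ) / 2 ^ m).toNNReal = (a : ℝ≥0) / 2 ^ m := by
      intro a
      rw [← NNReal.coe_inj, Real.coe_toNNReal _ (by positivity)]
      push_cast; rfl
    simp only [hnn]
    simpa using this
  have h1 : ∀ n : ℕ, P {ω | ¬ ∃ A : ℝ, 0 ≤ A ∧ Dy A (fun x => B x.toNNReal ω)} ≤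
      ENNReal.ofReal (1 / ((n : ℝ) + 1) ^ 4) * (ENNReal.ofReal (1 - q0)⁻¹ * K4) := fun n =>
    (measure_mono (hsub n)).trans (bad_le hB _ (by positivity) 0)
  have h2 : Tendsto (fun n : ℕ => ENNReal.ofReal (1 / ((n : ℝ) + 1) ^ 4) *
      (ENNReal.ofReal (1 - q0)⁻¹ * K4)) atTop (𝓝 (0 * (ENNReal.ofReal (1 - q0)⁻¹ * K4))) := by
    refine ENNReal.Tendsto.mul_const ?_ (Or.inr (ENNReal.mul_ne_top ENNReal.ofReal_ne_top
      K4_lt_top.ne))
    rw [← ENNReal.ofReal_zero]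
    refine ENNReal.tendsto_ofReal ?_
    have h3 : Tendsto (fun n : ℕ => (1 / ((n : ℝ) + 1)) ^ 4) atTop (𝓝 (0 ^ 4)) :=
      tendsto_one_div_add_atTop_nhds_zero_nat.pow 4
    simpa [one_div_pow] using h3
  rw [zero_mul] at h2
  exact le_antisymm (ge_of_tendsto' h2 h1) zero_le

end Pool.Agent.R972.RJ
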