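import Pool.Agent.R972.RJ.Defs
import Pool.Agent.R972.RJ.Baire
import Pool.Agent.R972.RJ.Path

/-!
# No Rajchman measure on the graph
-/

set_option autoImplicit false

open Set Filter Topology MeasureTheory ProbabilityTheory Pool.Agent.W854.DY
open scoped NNReal ENNReal

namespace Pool.Agent.R972.RJ

/-- the character -/
noncomputable def EE (y : ℝ) : ℂ := Complex.exp (-2 * Real.pi * Complex.I * (y : ℂ))

lemma EE_eq (y : ℝ) : EE y = Complex.exp (Complex.I * ((-2 * Real.pi * y : ℝ) : ℂ)) := by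
  unfold EE; congr 1; push_cast; ring

lemma EE_norm (y : ℝ) : ‖EE y‖ = 1 := by
  rw [EE_eq, mul_comm, Complex.norm_exp_ofReal_mul_I]

lemma EE_add (x y : ℝ) : EE (x + y) = EE x * EE y := by
  unfold EE; rw [← Complex.exp_add]; congr 1; push_cast; ring

lemma EE_int (m : ℤ) : EE (m : ℝ) = 1 := by
  unfold EE
  have h := Complex.exp_int_mul_two_pi_mul_I (-m)
  rw [← h]; congr 1; push_cast; ring

lemma EE_zero : EE 0 = 1 := by simpa using EE_int 0

lemma EE_conj (x : ℝ) : (starRingEnd ℂ) (EE x) = EE (-x) := by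
  rw [EE_eq, EE_eq, ← Complex.exp_conj]
  congr 1
  rw [map_mul, Complex.conj_I, Complex.conj_ofReal]
  push_cast; ring

lemma EE_cont : Continuous EE := by unfold EE; fun_prop

lemma EE_sub_one (y : ℝ) : ‖EE y - 1‖ ≤ 7 * |y| := by
  rw [EE_eq]
  refine (Real.norm_exp_I_mul_ofReal_sub_one_le).trans ?_
  rw [Real.norm_eq_abs, abs_mul, abs_mul]
  have h1 : |(-2 : ℝ)| = 2 := by norm_num
  rw [h1, abs_of_pos Real.pi_pos]
  have := Real.pi_lt_d2
  have := abs_nonneg y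
  nlinarith

lemma EE_near (y : ℝ) (m : ℤ) : ‖EE y - 1‖ ≤ 7 * |y - m| := by
  have h : EE y = EE (y - m) := by
    have := EE_add (y - m) m
    rw [EE_int, mul_one, sub_add_cancel] at this
    exact this
  rw [h]; exact EE_sub_one _

/-- the Fejér-type weight -/
noncomputable def gg (N : ℕ) (x : ℝ) : ℝ := ‖∑ m ∈ Finset.range 8, EE ((m : ℝ) * (N * x))‖ ^ 2 / 64

lemma gg_nonneg (N : ℕ) (x : ℝ) : 0 ≤ gg N x := by unfold gg; positivity

lemma gg_cont (N : ℕ) : Continuous (gg N) := by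
  unfold gg
  have := EE_cont
  fun_prop

lemma gg_le (N : ℕ) (x : ℝ) : gg N x ≤ 1 := by
  unfold gg
  have h : ‖∑ m ∈ Finset.range 8, EE ((m : ℝ) * (N * x))‖ ≤ 8 := by
    refine (norm_sum_le _ _).trans ?_
    simp [EE_norm]
  have h0 : 0 ≤ ‖∑ m ∈ Finset.range 8, EE ((m : ℝ) * (N * x))‖ := norm_nonneg _
  rw [div_le_one (by norm_num)]
  nlinarith

lemma gg_large {N : ℕ} {x : ℝ} {j : ℕ} (h0 : (j : ℝ) ≤ N * x) (h1 : N * x ≤ j + 1 / 256) :
    1 / 2 ≤ gg N x := by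
  have h2 : ∀ m ∈ Finset.range 8, ‖EE ((m : ℝ) * (N * x)) - 1‖ ≤ 7 * (8 / 256) := by
    intro m hm
    have hm' : (m : ℝ) ≤ 8 := by exact_mod_cast (Finset.mem_range.1 hm).le
    refine (EE_near _ ((m * j : ℕ) : ℤ)).trans ?_
    have e : (m : ℝ) * (N * x) - (((m * j : ℕ) : ℤ) : ℝ) = m * (N * x - j) := by push_cast; ring
    rw [e, abs_mul, abs_of_nonneg (Nat.cast_nonneg m : (0 : ℝ) ≤ m),
      abs_of_nonneg (by linarith : 0 ≤ (N : ℝ) * x - j)]
    have : (N : ℝ) * x - j ≤ 1 / 256 := by linarith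
    have h3 : (m : ℝ) * (N * x - j) ≤ 8 * (1 / 256) :=
      mul_le_mul hm' this (by linarith) (by norm_num)
    linarith
  have h3 : ‖(∑ m ∈ Finset.range 8, EE ((m : ℝ) * (N * x))) - 8‖ ≤ 8 * (7 * (8 / 256)) := by
    have e : (∑ m ∈ Finset.range 8, EE ((m : ℝ) * (N * x))) - 8 =
        ∑ m ∈ Finset.range 8, (EE ((m : ℝ) * (N * x)) - 1) := by
      rw [Finset.sum_sub_distrib]; simp
    rw [e]
    refine (norm_sum_le_of_le _ h2).trans ?_
    simp
  have h4 : 6 ≤ ‖∑ m ∈ Finset.range 8, EE ((m : ℝ) * (N * x))‖ := by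
    have h5 := norm_sub_norm_le (8 : ℂ) (∑ m ∈ Finset.range 8, EE ((m : ℝ) * (N * x)))
    rw [norm_sub_rev] at h5
    have h6 : ‖(8 : ℂ)‖ = 8 := by norm_num
    rw [h6] at h5
    linarith
  unfold gg
  rw [le_div_iff₀ (by norm_num)]
  nlinarith

lemma int_EE {μ : Measure (ℝ × ℝ)} [IsFiniteMeasure μ] {f : ℝ × ℝ → ℝ} (hf : Continuous f) :
    Integrable (fun p => EE (f p)) μ :=
  (integrable_const (1 : ℝ)).mono' (EE_cont.comp hf).aestronglyMeasurable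
    (Eventually.of_forall fun p => (EE_norm _).le)

lemma ft_eq (μ : Measure (ℝ × ℝ)) (a b : ℝ) : ft μ (a, b) = ∫ p, EE (a * p.1 + b * p.2) ∂μ := rfl

lemma gg_integral (μ : Measure (ℝ × ℝ)) [IsFiniteMeasure μ] (N : ℕ) :
    ((∫ p : ℝ × ℝ, gg N p.1 ∂μ : ℝ) : ℂ) = (∑ m ∈ Finset.range 8, ∑ l ∈ Finset.range 8,
      ft μ (((m : ℝ) - l) * N, 0)) / 64 := by
  rw [← integral_complex_ofReal]
  have e : ∀ p : ℝ × ℝ, ((gg N p.1 : ℝ) : ℂ) = (∑ m ∈ Finset.range 8, ∑ l ∈ Finset.range 8,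
      EE (((m : ℝ) - l) * N * p.1 + 0 * p.2)) / 64 := by
    intro p
    unfold gg
    push_cast
    rw [← Complex.mul_conj', map_sum, Finset.sum_mul_sum]
    congr 1
    refine Finset.sum_congr rfl fun m _ => Finset.sum_congr rfl fun l _ => ?_
    rw [EE_conj, ← EE_add]
    congr 1
    ring
  rw [integral_congr_ae (Eventually.of_forall e), integral_div]
  congr 1
  rw [integral_finsetSum _ fun m _ => integrable_finsetSum _ fun l _ => int_EE (by fun_prop)]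
  refine Finset.sum_congr rfl fun m _ => ?_
  rw [integral_finsetSum _ fun l _ => int_EE (by fun_prop)]
  rfl

lemma coco1 {c : ℕ → ℝ} (hc : Tendsto (fun k => |c k|) atTop atTop) :
    Tendsto (fun k => ((c k, 0) : ℝ × ℝ)) atTop (cocompact (ℝ × ℝ)) := by
  rw [← Metric.cobounded_eq_cocompact, ← tendsto_norm_atTop_iff_cobounded]
  refine tendsto_atTop_mono (fun k => ?_) hc
  exact le_trans (by simp) (norm_fst_le (c k, (0 : ℝ)))

lemma coco2 {c : ℕ → ℝ} (hc : Tendsto (fun k => |c k|) atTop atTop) :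
    Tendsto (fun k => ((0, c k) : ℝ × ℝ)) atTop (cocompact (ℝ × ℝ)) := by
  rw [← Metric.cobounded_eq_cocompact, ← tendsto_norm_atTop_iff_cobounded]
  refine tendsto_atTop_mono (fun k => ?_) hc
  exact le_trans (by simp) (norm_snd_le ((0 : ℝ), c k))

lemma gg_tendsto {μ : Measure (ℝ × ℝ)} [IsFiniteMeasure μ]
    (hμ : Tendsto (ft μ) (cocompact (ℝ × ℝ)) (𝓝 0)) {n : ℕ → ℕ} (hn : ∀ k, k ≤ n k) :
    Tendsto (fun k => ∫ p : ℝ × ℝ, gg (2 ^ n k) p.1 ∂μ) atTop (𝓝 (μ.real univ / 8)) := by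
  have hN : Tendsto (fun k => (((2 ^ n k : ℕ)) : ℝ)) atTop atTop := by
    refine tendsto_atTop_mono (fun k => ?_) tendsto_natCast_atTop_atTop
    have : k ≤ 2 ^ n k := (hn k).trans (Nat.lt_two_pow_self).le
    exact_mod_cast this
  have h1 : ∀ m ∈ Finset.range 8, ∀ l ∈ Finset.range 8, Tendsto (fun k =>
      ft μ (((m : ℝ) - l) * ((2 ^ n k : ℕ) : ℝ), 0)) atTop
        (𝓝 (if m = l then (μ.real univ : ℂ) else 0)) := by
    intro m _ l _
    split_ifs with h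
    · have : ∀ k : ℕ, ft μ (((m : ℝ) - l) * ((2 ^ n k : ℕ) : ℝ), 0) = (μ.real univ : ℂ) := by
        intro k
        rw [ft_eq, h]
        simp [EE_zero]
      simp only [this]
      exact tendsto_const_nhds
    · refine hμ.comp (coco1 ?_)
      have h2 : 0 < |(m : ℝ) - l| := abs_pos.2 (sub_ne_zero.2 (by exact_mod_cast h))
      have h3 : Tendsto (fun k => |(m : ℝ) - l| * ((2 ^ n k : ℕ) : ℝ)) atTop atTop :=
        hN.const_mul_atTop h2
      refine h3.congr fun k => ?_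
      rw [abs_mul, abs_of_nonneg (Nat.cast_nonneg _ : (0 : ℝ) ≤ ((2 ^ n k : ℕ) : ℝ))]
  have h2 : Tendsto (fun k => ((∫ p : ℝ × ℝ, gg (2 ^ n k) p.1 ∂μ : ℝ) : ℂ)) atTop
      (𝓝 ((∑ m ∈ Finset.range 8, ∑ l ∈ Finset.range 8,
        if m = l then (μ.real univ : ℂ) else 0) / 64)) := by
    simp only [gg_integral]
    exact (tendsto_finsetSum _ fun m hm => tendsto_finsetSum _ fun l hl => h1 m hm l hl).div_const _
  have h3 : (∑ m ∈ Finset.range 8, ∑ l ∈ Finset.range 8,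
        if m = l then (μ.real univ : ℂ) else 0) / 64 = ((μ.real univ / 8 : ℝ) : ℂ) := by
    simp [Finset.sum_ite_eq, Finset.sum_range_succ]
    ring
  rw [h3] at h2
  have h4 := (Complex.continuous_re.tendsto _).comp h2
  simpa [Function.comp_def] using h4

/-- the level of flatness needed when the grid has `2 ^ n` cells -/
lemma exists_lev (k n : ℕ) : ∃ L : ℕ, ((k : ℝ) + 1) ^ (2 ^ n + 2) * rr ^ L ≤ 1 := by
  have h0 : (0 : ℝ) < ((k : ℝ) + 1) ^ (2 ^ n + 2) := by positivity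
  obtain ⟨L, hL⟩ := exists_pow_lt_of_lt_one (inv_pos.2 h0) rr_lt
  refine ⟨L, ?_⟩
  have h1 : ((k : ℝ) + 1) ^ (2 ^ n + 2) * rr ^ L ≤ ((k : ℝ) + 1) ^ (2 ^ n + 2) *
      (((k : ℝ) + 1) ^ (2 ^ n + 2))⁻¹ := by gcongr
  rwa [mul_inv_cancel₀ h0.ne'] at h1

/-- the level -/
noncomputable def lev (k n : ℕ) : ℕ := (exists_lev k n).choose

lemma lev_spec (k n : ℕ) : ((k : ℝ) + 1) ^ (2 ^ n + 2) * rr ^ (lev k n) ≤ 1 :=
  (exists_lev k n).choose_spec

/-- the dichotomy for the points of the graph -/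
lemma dicho {V : ℝ → ℝ} (hV : Adm V) {b : ℝ≥0 → ℝ} (hb : Continuous b) {A : ℝ} (hA : 0 ≤ A)
    (hD : Dy A (fun x => b x.toNNReal)) {k n : ℕ} (hk : 8 ≤ k)
    (hfl : ∀ j : ℕ, j < 2 ^ n → V (((j : ℝ) + 1) / (2 ^ n : ℕ)) -
      V (((j : ℝ) + (1 / 2) ^ k) / (2 ^ n : ℕ)) < (1 / 2) ^ (lev k n)) :
    ∃ ξ : ℝ, (k : ℝ) ≤ ξ ∧ ∀ p ∈ graph V b,
      ‖EE (ξ * p.2) - 1‖ ≤ 7 * ((1 + 25 * A) / ((k : ℝ) + 1)) + 4 * gg (2 ^ n) p.1 := by
  set N : ℕ := 2 ^ n with hN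
  have hN0 : 0 < N := by positivity
  have hN' : (0 : ℝ) < N := by exact_mod_cast hN0
  have hk1 : (0 : ℝ) < (k : ℝ) + 1 := by positivity
  obtain ⟨q, hq1, hq2, hq⟩ := dirichlet N (k + 1) (by omega)
    (fun j => ((k : ℝ) + 1) * b (V (((j : ℝ) + 1) / N)).toNNReal)
  have hq1' : (1 : ℝ) ≤ q := by exact_mod_cast hq1
  have hq2' : (q : ℝ) ≤ ((k : ℝ) + 1) ^ N := by exact_mod_cast hq2
  refine ⟨q * ((k : ℝ) + 1), by nlinarith, ?_⟩
  rintro ⟨x, y⟩ ⟨⟨hx0, hx1⟩, hy⟩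
  simp only at hx0 hx1 hy ⊢
  have hg0 := gg_nonneg N x
  have hc0 : 0 ≤ 7 * ((1 + 25 * A) / ((k : ℝ) + 1)) := by positivity
  -- the cell of `x`
  obtain ⟨j, hjN, hj0, hj1⟩ : ∃ j : ℕ, j < N ∧ (j : ℝ) ≤ N * x ∧ N * x ≤ j + 1 := by
    rcases eq_or_lt_of_le hx1 with h | h
    · refine ⟨N - 1, by omega, ?_, ?_⟩
      · rw [h, Nat.cast_sub (by omega)]; push_cast; linarith
      · rw [h, Nat.cast_sub (by omega)]; push_cast; linarith
    · have h0 : (⌊(N : ℝ) * x⌋₊ : ℝ) ≤ N * x := Nat.floor_le (by positivity)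
      refine ⟨⌊(N : ℝ) * x⌋₊, ?_, h0, (Nat.lt_floor_add_one _).le⟩
      have : (⌊(N : ℝ) * x⌋₊ : ℝ) < N := lt_of_le_of_lt h0 (by nlinarith)
      exact_mod_cast this
  have hpk : (1 / 2 : ℝ) ^ k ≤ 1 / 256 := by
    calc (1 / 2 : ℝ) ^ k ≤ (1 / 2) ^ 8 := pow_le_pow_of_le_one (by norm_num) (by norm_num) hk
      _ = 1 / 256 := by norm_num
  rcases le_or_gt ((N : ℝ) * x) (j + (1 / 2) ^ k) with h | h
  · have h1 := gg_large hj0 (h.trans (by linarith))
    have h2 : ‖EE (q * ((k : ℝ) + 1) * y) - 1‖ ≤ 2 := by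
      refine (norm_sub_le _ _).trans ?_
      rw [EE_norm, norm_one]; norm_num
    linarith
  · have hx2 : x ≤ ((j : ℝ) + 1) / N := by rw [le_div_iff₀ hN']; linarith
    have hx3 : ((j : ℝ) + (1 / 2) ^ k) / N ≤ x := by rw [div_le_iff₀ hN']; linarith
    have hv1 := hV.mono hx2
    have hv2 := hV.mono hx3
    have hv3 := hfl j hjN
    have hosc := osc (hb.comp continuous_real_toNNReal) hA hD (lev k n) (hV.nonneg x) hv1
      (hV.le_one _) (by linarith)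
    obtain ⟨m, hm⟩ := hq j hjN
    have hkk : (((k + 1 : ℕ) : ℝ)) = (k : ℝ) + 1 := by push_cast; ring
    rw [hkk] at hm
    simp only [Function.comp_apply] at hosc
    set yj := b (V (((j : ℝ) + 1) / N)).toNNReal with hyj
    rw [← hy] at hosc
    have h3 : |q * ((k : ℝ) + 1) * y - m| ≤ (1 + 25 * A) / ((k : ℝ) + 1) := by
      have e : q * ((k : ℝ) + 1) * y - m = q * ((k : ℝ) + 1) * (y - yj) +
        (q * (((k : ℝ) + 1) * yj) - m) := by ring
      rw [e]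
      refine (abs_add_le _ _).trans ?_
      rw [abs_mul, abs_of_nonneg (by positivity : 0 ≤ q * ((k : ℝ) + 1))]
      have h4 : q * ((k : ℝ) + 1) * |y - yj| ≤ 25 * A / ((k : ℝ) + 1) := by
        rw [le_div_iff₀ hk1]
        have h5 : 0 ≤ A * rr ^ lev k n := mul_nonneg hA (pow_nonneg rr_pos.le _)
        calc q * ((k : ℝ) + 1) * |y - yj| * ((k : ℝ) + 1)
            ≤ ((k : ℝ) + 1) ^ N * ((k : ℝ) + 1) * (25 * (A * rr ^ lev k n)) * ((k : ℝ) + 1) := by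
              gcongr
          _ = 25 * A * (((k : ℝ) + 1) ^ (2 ^ n + 2) * rr ^ lev k n) := by
              rw [hN]; ring
          _ ≤ 25 * A * 1 := by
              gcongr
              exact lev_spec k n
          _ = 25 * A := by ring
      have h6 : (1 + 25 * A) / ((k : ℝ) + 1) = 25 * A / ((k : ℝ) + 1) + 1 / ((k : ℝ) + 1) := by
        rw [← add_div]; ring_nf
      rw [h6]
      exact add_le_add h4 hm
    have h7 := EE_near (q * ((k : ℝ) + 1) * y) m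
    linarith

/-- **the deterministic statement** -/
theorem no_rajchman {V : ℝ → ℝ} (hV : Adm V)
    (hfl : ∀ k : ℕ, ∃ n : ℕ, k ≤ n ∧ ∀ j : ℕ, j < 2 ^ n → V (((j : ℝ) + 1) / (2 ^ n : ℕ)) -
      V (((j : ℝ) + (1 / 2) ^ k) / (2 ^ n : ℕ)) < (1 / 2) ^ (lev k n))
    {b : ℝ≥0 → ℝ} (hb : Continuous b) {A : ℝ} (hA : 0 ≤ A) (hD : Dy A (fun x => b x.toNNReal))
    {μ : Measure (ℝ × ℝ)} (hμ : IsRajchman μ) (hs : μ (graph V b)ᶜ = 0) : False := by
  have hfin := hμ.finite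
  choose n hn hflat using hfl
  have hex : ∀ k : ℕ, ∃ ξ : ℝ, (k : ℝ) ≤ ξ ∧ (8 ≤ k → ∀ p ∈ graph V b,
      ‖EE (ξ * p.2) - 1‖ ≤ 7 * ((1 + 25 * A) / ((k : ℝ) + 1)) + 4 * gg (2 ^ n k) p.1) := by
    intro k
    by_cases hk : 8 ≤ k
    · obtain ⟨ξ, h1, h2⟩ := dicho hV hb hA hD hk (hflat k)
      exact ⟨ξ, h1, fun _ => h2⟩
    · exact ⟨k, le_rfl, fun h => absurd h hk⟩
  choose ξ hξ1 hξ2 using hex
  have hξ : Tendsto (fun k => |ξ k|) atTop atTop :=
    tendsto_atTop_mono (fun k => (hξ1 k).trans (le_abs_self _)) tendsto_natCast_atTop_atTop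
  have h1 : Tendsto (fun k => ft μ (0, ξ k)) atTop (𝓝 0) := hμ.decay.comp (coco2 hξ)
  have h2 := gg_tendsto hμ.decay hn
  have h3 : ∀ k, 8 ≤ k → ‖ft μ (0, ξ k) - (μ.real univ : ℂ)‖ ≤
      7 * ((1 + 25 * A) / ((k : ℝ) + 1)) * μ.real univ + 4 * ∫ p : ℝ × ℝ, gg (2 ^ n k) p.1 ∂μ := by
    intro k hk
    have e1 : ft μ (0, ξ k) - (μ.real univ : ℂ) = ∫ p : ℝ × ℝ, (EE (ξ k * p.2) - 1) ∂μ := by
      rw [integral_sub (int_EE (by fun_prop)) (integrable_const _)]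
      congr 1
      · rw [ft_eq]
        refine integral_congr_ae (Eventually.of_forall fun p => ?_)
        simp
      · simp
    have hgi : Integrable (fun p : ℝ × ℝ => gg (2 ^ n k) p.1) μ :=
      (integrable_const (1 : ℝ)).mono' ((gg_cont _).comp continuous_fst).aestronglyMeasurable
        (Eventually.of_forall fun p => by
          rw [Real.norm_eq_abs, abs_of_nonneg (gg_nonneg _ _)]; exact gg_le _ _)
    rw [e1]
    refine (norm_integral_le_integral_norm _).trans ?_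
    have e2 : 7 * ((1 + 25 * A) / ((k : ℝ) + 1)) * μ.real univ +
        4 * ∫ p : ℝ × ℝ, gg (2 ^ n k) p.1 ∂μ = ∫ p : ℝ × ℝ,
          (7 * ((1 + 25 * A) / ((k : ℝ) + 1)) + 4 * gg (2 ^ n k) p.1) ∂μ := by
      rw [integral_add (integrable_const _) (hgi.const_mul 4), integral_const, integral_const_mul,
        smul_eq_mul]
      ring
    rw [e2]
    refine integral_mono_ae ?_ ((integrable_const _).add (hgi.const_mul 4)) ?_
    · exact ((int_EE (f := fun p : ℝ × ℝ => ξ k * p.2) (by fun_prop)).sub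
        (integrable_const 1)).norm
    · have hae : ∀ᵐ p ∂μ, p ∈ graph V b := by rw [ae_iff]; exact hs
      filter_upwards [hae] with p hp using hξ2 k hk p hp
  have h4 : Tendsto (fun k : ℕ => 7 * ((1 + 25 * A) / ((k : ℝ) + 1)) * μ.real univ +
      4 * ∫ p : ℝ × ℝ, gg (2 ^ n k) p.1 ∂μ) atTop
      (𝓝 (7 * ((1 + 25 * A) * 0) * μ.real univ + 4 * (μ.real univ / 8))) := by
    refine Tendsto.add (Tendsto.mul_const _ (Tendsto.const_mul _ ?_)) (h2.const_mul 4)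
    have := (tendsto_one_div_add_atTop_nhds_zero_nat (𝕜 := ℝ)).const_mul (1 + 25 * A)
    refine this.congr fun k => ?_
    ring
  have h5 : Tendsto (fun k => ‖ft μ (0, ξ k) - (μ.real univ : ℂ)‖) atTop
      (𝓝 ‖(0 : ℂ) - (μ.real univ : ℂ)‖) := (h1.sub_const _).norm
  have h6 := le_of_tendsto_of_tendsto h5 h4 (eventually_atTop.2 ⟨8, fun k hk => h3 k hk⟩)
  have h7 : ‖(0 : ℂ) - (μ.real univ : ℂ)‖ = μ.real univ := by
    rw [zero_sub, norm_neg, Complex.norm_real, Real.norm_eq_abs, abs_of_nonneg measureReal_nonneg]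
  rw [h7] at h6
  have h8 : μ.real univ = 0 := le_antisymm (by linarith) measureReal_nonneg
  have h9 : μ univ = 0 := by
    rwa [measureReal_eq_zero_iff] at h8
  exact hμ.ne_zero (Measure.measure_univ_eq_zero.1 h9)

lemma graph_closed {V : ℝ → ℝ} (hV : Continuous V) {b : ℝ≥0 → ℝ} (hb : Continuous b) :
    IsClosed (graph V b) := by
  have h : graph V b = {p : ℝ × ℝ | p.1 ∈ Icc (0 : ℝ) 1} ∩
      {p : ℝ × ℝ | p.2 = b (V p.1).toNNReal} := rfl
  rw [h]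
  refine (isClosed_Icc.preimage continuous_fst).inter (isClosed_eq continuous_snd ?_)
  exact hb.comp (continuous_real_toNNReal.comp (hV.comp continuous_fst))

/-- **the main theorem** -/
theorem main : ∃ V : ℝ → ℝ, ContinuousOn V (Icc 0 1) ∧ StrictMonoOn V (Icc 0 1) ∧
    (∀ t ∈ Icc (0 : ℝ) 1, 0 ≤ V t) ∧
    ∀ {Ω : Type*} [MeasurableSpace Ω] (P : Measure Ω) (B : ℝ≥0 → Ω → ℝ), IsBrownianReal B P →
      ∀ᵐ ω ∂P, ∀ μ : Measure (ℝ × ℝ), IsRajchman μ → ¬ μ.support ⊆ graph V (fun t => B t ω) := by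
  obtain ⟨V, hc, hV, hs, hfl⟩ := exists_V (fun k n => (1 / 2) ^ (lev k n))
    (fun k n => by positivity)
  refine ⟨V, hc.continuousOn, hs, fun t _ => hV.nonneg t, ?_⟩
  intro Ω _ P B hB
  filter_upwards [hB.cont, ae_Dy hB.toIsPreBrownianReal] with ω hω hD
  obtain ⟨A, hA, hD⟩ := hD
  intro μ hμ hsub
  have := hμ.finite
  refine no_rajchman hV hfl hω hA hD hμ ?_
  exact measure_mono_null (compl_subset_compl.2 hsub) Measure.measure_compl_support

end Pool.Agent.R972.RJ
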