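import Mathlib

/-!
# A continuous strictly increasing function which is almost flat on most of `[0,1]`
-/

set_option autoImplicit false

open Set Filter Topology
open scoped BoundedContinuousFunction

namespace Pool.Agent.R972.RJ

/-- clamp to `[0,1]` -/
noncomputable def cl (x : ℝ) : ℝ := max 0 (min x 1)

lemma cl_zero {x : ℝ} (h : x ≤ 0) : cl x = 0 := by
  unfold cl; exact max_eq_left (le_trans (min_le_left _ _) h)

lemma cl_one {x : ℝ} (h : 1 ≤ x) : cl x = 1 := by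
  unfold cl; rw [min_eq_right h]; norm_num

lemma cl_id {x : ℝ} (h0 : 0 ≤ x) (h1 : x ≤ 1) : cl x = x := by
  unfold cl; rw [min_eq_left h1, max_eq_right h0]

lemma cl_nonneg (x : ℝ) : 0 ≤ cl x := le_max_left _ _

lemma cl_le (x : ℝ) : cl x ≤ 1 := by
  unfold cl; exact max_le zero_le_one (min_le_right _ _)

lemma cl_cont : Continuous cl := by unfold cl; fun_prop

lemma cl_mono : Monotone cl := by
  intro x y h
  unfold cl
  exact max_le_max le_rfl (min_le_min h le_rfl)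

/-- admissible functions: nondecreasing, `0` on `(-∞,0]`, `1` on `[1,∞)` -/
structure Adm (V : ℝ → ℝ) : Prop where
  mono : Monotone V
  zero : ∀ t ≤ 0, V t = 0
  one : ∀ t, 1 ≤ t → V t = 1

lemma Adm.nonneg {V : ℝ → ℝ} (h : Adm V) (t : ℝ) : 0 ≤ V t := by
  rcases le_total t 0 with h0 | h0
  · rw [h.zero t h0]
  · rw [← h.zero 0 le_rfl]; exact h.mono h0

lemma Adm.le_one {V : ℝ → ℝ} (h : Adm V) (t : ℝ) : V t ≤ 1 := by
  rcases le_total t 1 with h0 | h0
  · rw [← h.one 1 le_rfl]; exact h.mono h0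
  · rw [h.one t h0]

/-- replace `V` on every cell of the grid by a rescaled power function -/
noncomputable def S (V : ℝ → ℝ) (N : ℕ) (p : ℝ) (t : ℝ) : ℝ :=
  ∑ j ∈ Finset.range N, (V (((j : ℝ) + 1) / N) - V ((j : ℝ) / N)) * (cl (N * t - j)) ^ p

lemma tele (V : ℝ → ℝ) (N i : ℕ) :
    ∑ j ∈ Finset.range i, (V (((j : ℝ) + 1) / N) - V ((j : ℝ) / N)) = V ((i : ℝ) / N) - V 0 := by
  have := Finset.sum_range_sub (fun j : ℕ => V ((j : ℝ) / N)) i
  simpa using this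

lemma S_cell {V : ℝ → ℝ} (hV : Adm V) {N : ℕ} (hN : 0 < N) {p : ℝ} (hp : 0 < p) {i : ℕ}
    (hi : i < N) {t : ℝ} (h0 : (i : ℝ) ≤ N * t) (h1 : N * t ≤ i + 1) :
    S V N p t = V ((i : ℝ) / N) +
      (V (((i : ℝ) + 1) / N) - V ((i : ℝ) / N)) * (N * t - i) ^ p := by
  unfold S
  rw [← Finset.sum_range_add_sum_Ico _ (show i + 1 ≤ N by omega), Finset.sum_range_succ]
  have e1 : ∑ j ∈ Finset.range i, (V (((j : ℝ) + 1) / N) - V ((j : ℝ) / N)) *
      (cl (N * t - j)) ^ p = V ((i : ℝ) / N) := by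
    rw [← sub_zero (V ((i : ℝ) / N)), ← hV.zero 0 le_rfl, ← tele V N i]
    refine Finset.sum_congr rfl fun j hj => ?_
    have hj' : (j : ℝ) + 1 ≤ i := by exact_mod_cast Finset.mem_range.1 hj
    rw [cl_one (by linarith), Real.one_rpow, mul_one]
  have e2 : ∑ j ∈ Finset.Ico (i + 1) N, (V (((j : ℝ) + 1) / N) - V ((j : ℝ) / N)) *
      (cl (N * t - j)) ^ p = 0 := by
    refine Finset.sum_eq_zero fun j hj => ?_
    have hj' : (i : ℝ) + 1 ≤ j := by exact_mod_cast (Finset.mem_Ico.1 hj).1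
    rw [cl_zero (by linarith), Real.zero_rpow hp.ne', mul_zero]
  rw [e1, e2, add_zero, cl_id (by linarith) (by linarith)]

lemma S_adm {V : ℝ → ℝ} (hV : Adm V) {N : ℕ} (hN : 0 < N) {p : ℝ} (hp : 0 < p) :
    Adm (S V N p) := by
  have hN' : (0 : ℝ) < N := by exact_mod_cast hN
  have hw : ∀ j : ℕ, 0 ≤ V (((j : ℝ) + 1) / N) - V ((j : ℝ) / N) := fun j =>
    sub_nonneg.2 (hV.mono (by gcongr; linarith))
  refine ⟨?_, ?_, ?_⟩
  · intro s t h
    unfold S
    refine Finset.sum_le_sum fun j _ => mul_le_mul_of_nonneg_left ?_ (hw j)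
    exact Real.rpow_le_rpow (cl_nonneg _) (cl_mono (by gcongr)) hp.le
  · intro t ht
    unfold S
    refine Finset.sum_eq_zero fun j _ => ?_
    have h1 : (N : ℝ) * t ≤ 0 := mul_nonpos_of_nonneg_of_nonpos hN'.le ht
    rw [cl_zero (by linarith [(Nat.cast_nonneg j : (0 : ℝ) ≤ j)]), Real.zero_rpow hp.ne', mul_zero]
  · intro t ht
    unfold S
    have h0 := tele V N N
    rw [div_self hN'.ne', hV.one 1 le_rfl, hV.zero 0 le_rfl, sub_zero] at h0
    refine Eq.trans (Finset.sum_congr rfl fun j hj => ?_) h0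
    have hj' : (j : ℝ) + 1 ≤ N := by exact_mod_cast Finset.mem_range.1 hj
    have h1 : (N : ℝ) * 1 ≤ N * t := by gcongr
    rw [cl_one (by linarith), Real.one_rpow, mul_one]

lemma S_cont (V : ℝ → ℝ) (N : ℕ) {p : ℝ} (hp : 0 < p) : Continuous (S V N p) := by
  unfold S
  refine continuous_finsetSum _ fun j _ => continuous_const.mul ?_
  exact (cl_cont.comp (by fun_prop)).rpow_const fun _ => Or.inr hp.le

lemma S_close {V : ℝ → ℝ} (hV : Adm V) {N : ℕ} (hN : 0 < N) {p : ℝ} (hp : 0 < p) {r : ℝ}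
    (hr : ∀ i : ℕ, i < N → V (((i : ℝ) + 1) / N) - V ((i : ℝ) / N) ≤ r) (hr0 : 0 ≤ r) (t : ℝ) :
    |S V N p t - V t| ≤ r := by
  have hN' : (0 : ℝ) < N := by exact_mod_cast hN
  have hS := S_adm hV hN hp
  rcases le_or_gt t 0 with h0 | h0
  · rw [hS.zero t h0, hV.zero t h0]; simpa using hr0
  rcases le_or_gt 1 t with h1 | h1
  · rw [hS.one t h1, hV.one t h1]; simpa using hr0
  set i := ⌊(N : ℝ) * t⌋₊ with hi
  have hi0 : (i : ℝ) ≤ N * t := Nat.floor_le (by positivity)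
  have hi1 : (N : ℝ) * t < i + 1 := Nat.lt_floor_add_one _
  have hiN : i < N := by
    have : (i : ℝ) < N := lt_of_le_of_lt hi0 (by nlinarith)
    exact_mod_cast this
  rw [S_cell hV hN hp hiN hi0 hi1.le]
  have ha : V ((i : ℝ) / N) ≤ V t := hV.mono (by rw [div_le_iff₀ hN']; linarith)
  have hb : V t ≤ V (((i : ℝ) + 1) / N) := hV.mono (by rw [le_div_iff₀ hN']; linarith)
  have hc0 : 0 ≤ ((N : ℝ) * t - i) ^ p := Real.rpow_nonneg (by linarith) _
  have hc1 : ((N : ℝ) * t - i) ^ p ≤ 1 := Real.rpow_le_one (by linarith) (by linarith) hp.le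
  have hri := hr i hiN
  have hw : 0 ≤ V (((i : ℝ) + 1) / N) - V ((i : ℝ) / N) := by linarith
  have h2 : 0 ≤ (V (((i : ℝ) + 1) / N) - V ((i : ℝ) / N)) * ((N : ℝ) * t - i) ^ p :=
    mul_nonneg hw hc0
  have h3 : (V (((i : ℝ) + 1) / N) - V ((i : ℝ) / N)) * ((N : ℝ) * t - i) ^ p ≤
      V (((i : ℝ) + 1) / N) - V ((i : ℝ) / N) := mul_le_of_le_one_right hw hc1
  rw [abs_le]
  constructor <;> linarith

/-- the last part of each cell -/
lemma S_flat {V : ℝ → ℝ} (hV : Adm V) {N : ℕ} (hN : 0 < N) {p : ℝ} (hp : 0 < p) {i : ℕ}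
    (hi : i < N) {a : ℝ} (ha0 : 0 ≤ a) (ha1 : a ≤ 1) :
    S V N p (((i : ℝ) + 1) / N) - S V N p (((i : ℝ) + a) / N) ≤ 1 - a ^ p := by
  have hN' : (0 : ℝ) < N := by exact_mod_cast hN
  have e1 : (N : ℝ) * (((i : ℝ) + 1) / N) = i + 1 := by field_simp
  have e2 : (N : ℝ) * (((i : ℝ) + a) / N) = i + a := by field_simp
  rw [S_cell hV hN hp hi (by rw [e1]; linarith) (by rw [e1]),
    S_cell hV hN hp hi (by rw [e2]; linarith) (by rw [e2]; linarith), e1, e2]
  rw [show (i : ℝ) + 1 - i = 1 by ring, show (i : ℝ) + a - i = a by ring, Real.one_rpow]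
  have h1 := hV.le_one (((i : ℝ) + 1) / N)
  have h2 := hV.nonneg ((i : ℝ) / N)
  have h3 : a ^ p ≤ 1 := Real.rpow_le_one ha0 ha1 hp.le
  nlinarith

end Pool.Agent.R972.RJ
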